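import Pool.Agent.TH798.CE.Geo

set_option autoImplicit false

namespace Pool.Agent.Results.MP_4e5648_mp.CircleEllipseTen

/-- Euclidean three-space. -/
abbrev E3 := EuclideanSpace ℝ (Fin 3)

/-- For orthonormal `u, w`: the regular parametrisation (by `s`) of the circle with centre `F` and
radius `r` in the plane `F + span (u, w)`. The focus of a circle is its centre `F`. -/
noncomputable def circlePt (F u w : E3) (r s : ℝ) : E3 :=
  F + (r * Real.cos s) • u + (r * Real.sin s) • w

/-- For orthonormal `u, w`: the regular parametrisation (by the eccentric anomaly `t`) of the ellipse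
with eccentricity `e` and semi-major axis `a` in the plane `F + span (u, w)`, whose centre is
`F + a e u` and whose major axis is parallel to `u`; so `F` is a focus of it (either focus can be
put at `F` by changing the sign of `u`). -/
noncomputable def ellipsePt (F u w : E3) (a e t : ℝ) : E3 :=
  F + (a * (e + Real.cos t)) • u + (a * √(1 - e ^ 2) * Real.sin t) • w

/-- `(s, t)` is a stationary parameter pair of the squared distance between the points `c s` and
`E t`: both partial derivatives of `‖c s - E t‖ ^ 2` vanish. -/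
def IsStationary (c E : ℝ → E3) (s t : ℝ) : Prop :=
  HasDerivAt (fun s' => ‖c s' - E t‖ ^ 2) 0 s ∧ HasDerivAt (fun t' => ‖c s - E t'‖ ^ 2) 0 t

/-- **Circle and confocal ellipse: at most ten stationary points.** For every circle and every
non-circular ellipse in three-space such that the centre `F` of the circle is a focus of the ellipse,
the squared distance between a point of the circle and a point of the ellipse has finitely many
stationary points, and at most ten. -/
theorem result (F u₁ w₁ u₂ w₂ : E3) (r a e : ℝ) (hr : 0 < r) (ha : 0 < a) (he0 : 0 < e)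
    (he1 : e < 1) (hu₁ : ‖u₁‖ = 1) (hw₁ : ‖w₁‖ = 1) (h₁ : inner ℝ u₁ w₁ = 0)
    (hu₂ : ‖u₂‖ = 1) (hw₂ : ‖w₂‖ = 1) (h₂ : inner ℝ u₂ w₂ = 0) :
    {x : E3 × E3 | ∃ s t : ℝ, x = (circlePt F u₁ w₁ r s, ellipsePt F u₂ w₂ a e t) ∧
      IsStationary (circlePt F u₁ w₁ r) (ellipsePt F u₂ w₂ a e) s t}.Finite ∧
    {x : E3 × E3 | ∃ s t : ℝ, x = (circlePt F u₁ w₁ r s, ellipsePt F u₂ w₂ a e t) ∧
      IsStationary (circlePt F u₁ w₁ r) (ellipsePt F u₂ w₂ a e) s t}.ncard ≤ 10 := by
  have h : {x : E3 × E3 | ∃ s t : ℝ, x = (circlePt F u₁ w₁ r s, ellipsePt F u₂ w₂ a e t) ∧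
      IsStationary (circlePt F u₁ w₁ r) (ellipsePt F u₂ w₂ a e) s t}.encard ≤ (10 : ℕ) :=
    Pool.Agent.TH798.CE.stationary_encard hr ha he0 he1 hu₁ hw₁ h₁ hu₂ hw₂ h₂
  have hfin := Set.finite_of_encard_le_coe h
  refine ⟨hfin, ?_⟩
  rw [← hfin.cast_ncard_eq] at h
  exact_mod_cast h

end Pool.Agent.Results.MP_4e5648_mp.CircleEllipseTen
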